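import Pool.Agent.Q304.Ham.Geom

/-!
Adding one generic point, or three generic points with a given sum, to a set of points of the plane
together with its splittings into two linearly independent sets.
-/

open Set Cardinal

namespace Pool.Agent.Q304.Ham

open Pool.Agent.Q304.SH (small_biUnion small_union small_prod small_mono)

/-- `A`, `B` is a splitting of `M` into two linearly independent sets neither of which contains two
points on a line of direction `u`. -/
structure Gd (u : V) (M A B : Set V) : Prop where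
  un : A ∪ B = M
  dj : Disjoint A B
  iA : LinearIndepOn ℚ id A
  iB : LinearIndepOn ℚ id B
  sA : ∀ p ∈ A, ∀ q ∈ A, dt (p - q) u = 0 → p = q
  sB : ∀ p ∈ B, ∀ q ∈ B, dt (p - q) u = 0 → p = q

lemma Gd.symm {u : V} {M A B : Set V} (h : Gd u M A B) : Gd u M B A :=
  ⟨by rw [union_comm]; exact h.un, h.dj.symm, h.iB, h.iA, h.sB, h.sA⟩

lemma dt_symm {u p q : V} (h : dt (p - q) u = 0) : dt (q - p) u = 0 := by
  unfold dt at *
  simp only [Prod.fst_sub, Prod.snd_sub] at *
  linarith

/-- Adding a point to the first class. -/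
lemma Gd.addA {u : V} {M A B : Set V} (h : Gd u M A B) {p : V} (hpM : p ∉ M)
    (hp : p ∉ Submodule.span ℚ A) (hs : ∀ w ∈ A, dt (p - w) u ≠ 0) :
    Gd u (insert p M) (insert p A) B := by
  refine ⟨?_, ?_, h.iA.id_insert hp, h.iB, ?_, h.sB⟩
  · rw [insert_union, h.un]
  · rw [disjoint_insert_left]
    exact ⟨fun hB => hpM (by rw [← h.un]; exact Or.inr hB), h.dj⟩
  · rintro a (rfl | ha) b (rfl | hb) hab
    · rfl
    · exact absurd hab (hs b hb)
    · exact absurd (dt_symm hab) (hs a ha)
    · exact h.sA a ha b hb hab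

/-- Adding a point to the second class. -/
lemma Gd.addB {u : V} {M A B : Set V} (h : Gd u M A B) {p : V} (hpM : p ∉ M)
    (hp : p ∉ Submodule.span ℚ B) (hs : ∀ w ∈ B, dt (p - w) u ≠ 0) :
    Gd u (insert p M) A (insert p B) :=
  (h.symm.addA hpM hp hs).symm

/-- Every splitting of `M` extends to `M ∪ β`. -/
def Ext (M β : Set V) : Prop := ∀ u : V, u ≠ 0 → ∀ A B, Gd u M A B →
  ∃ A' B', A ⊆ A' ∧ B ⊆ B' ∧ Gd u (M ∪ β) A' B'

/-- Every splitting of `M` in direction `u` extends to `M ∪ β` in such a way that `v` is in the span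
of the class `X`. -/
def ExtT (M β : Set V) (v u : V) (X : Bool) : Prop := ∀ A B, Gd u M A B →
  ∃ A' B', A ⊆ A' ∧ B ⊆ B' ∧ Gd u (M ∪ β) A' B' ∧ v ∈ Submodule.span ℚ (if X then A' else B')

lemma ext_empty (M : Set V) : Ext M ∅ := by
  intro u _ A B h
  exact ⟨A, B, Subset.rfl, Subset.rfl, by rwa [union_empty]⟩

lemma not_mem_of_span {M : Set V} {p : V} (hp : p ∉ Submodule.span ℚ M) : p ∉ M :=
  fun h => hp (Submodule.subset_span h)

/-- One generic point. -/
lemma ext_single {M : Set V} {p : V} (hp : p ∉ Submodule.span ℚ M)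
    (hl : ∀ q ∈ M, ∀ q' ∈ M, q ≠ q' → dt (p - q) (q' - q) ≠ 0) : Ext M {p} := by
  intro u hu A B h
  have hAM : A ⊆ M := by rw [← h.un]; exact subset_union_left
  have hBM : B ⊆ M := by rw [← h.un]; exact subset_union_right
  have hpA : p ∉ Submodule.span ℚ A := fun h => hp (Submodule.span_mono hAM h)
  have hpB : p ∉ Submodule.span ℚ B := fun h => hp (Submodule.span_mono hBM h)
  have hun : M ∪ {p} = insert p M := union_singleton
  rw [hun]
  by_cases hc : ∃ q ∈ A, dt (p - q) u = 0
  · obtain ⟨q, hq, hpq⟩ := hc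
    refine ⟨A, insert p B, Subset.rfl, subset_insert _ _,
      h.addB (not_mem_of_span hp) hpB fun w hw hpw => ?_⟩
    have hne : q ≠ w := fun e => Set.disjoint_left.1 h.dj hq (e ▸ hw)
    refine hl q (hAM hq) w (hBM hw) hne (dt_par hu hpq ?_)
    unfold dt at *
    simp only [Prod.fst_sub, Prod.snd_sub] at *
    linarith
  · push Not at hc
    exact ⟨insert p A, B, subset_insert _ _, Subset.rfl, h.addA (not_mem_of_span hp) hpA hc⟩

/-- The pairs of points that involve a new point. -/
inductive Ed
  | pp (y : V) | qq (y : V) | rr (y : V) | pq | pr | qr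

/-- The pair is really a pair of points of `M ∪ {p, q, r}`. -/
def Ed.ok (M : Set V) : Ed → Prop
  | .pp y => y ∈ M
  | .qq y => y ∈ M
  | .rr y => y ∈ M
  | _ => True

/-- The difference of the two points. -/
def Ed.dir (p q r : V) : Ed → V
  | .pp y => p - y
  | .qq y => q - y
  | .rr y => r - y
  | .pq => p - q
  | .pr => p - r
  | .qr => q - r

/-- Three generic points with sum `v`. -/
structure Tri (M : Set V) (v p q r : V) : Prop where
  sum : r = v - p - q
  hp : p ∉ Submodule.span ℚ (insert v M)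
  hq : q ∉ Submodule.span ℚ (insert p (insert v M))
  one : ∀ u ≠ 0, ∀ e e' : Ed, e.ok M → e'.ok M → dt (e.dir p q r) u = 0 →
    dt (e'.dir p q r) u = 0 → e = e'

lemma Tri.ind {M : Set V} {v p q r : V} (h : Tri M v p q r) (a b : ℚ)
    (hab : a • p + b • q ∈ Submodule.span ℚ (insert v M)) : a = 0 ∧ b = 0 := by
  have hb : b = 0 := by
    by_contra hb
    apply h.hq
    have h1 : q = b⁻¹ • ((a • p + b • q) - a • p) := by
      rw [add_sub_cancel_left, smul_smul, inv_mul_cancel₀ hb, one_smul]
    rw [h1]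
    refine Submodule.smul_mem _ _ (Submodule.sub_mem _ ?_ ?_)
    · exact Submodule.span_mono (subset_insert _ _) hab
    · exact Submodule.smul_mem _ _ (Submodule.subset_span (mem_insert _ _))
  refine ⟨?_, hb⟩
  by_contra ha
  apply h.hp
  rw [hb, zero_smul, add_zero] at hab
  have h1 : p = a⁻¹ • (a • p) := by rw [smul_smul, inv_mul_cancel₀ ha, one_smul]
  rw [h1]
  exact Submodule.smul_mem _ _ hab

lemma Tri.ind' {M : Set V} {v p q r : V} (h : Tri M v p q r) (a b c : ℚ) (w : V)
    (hw : w ∈ Submodule.span ℚ M) (hab : a • p + b • q = w + c • v) : a = 0 ∧ b = 0 := by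
  refine h.ind a b ?_
  rw [hab]
  exact Submodule.add_mem _ (Submodule.span_mono (subset_insert _ _) hw)
    (Submodule.smul_mem _ _ (Submodule.subset_span (mem_insert _ _)))

section
variable {M : Set V} {v p q r : V}

lemma Tri.p1 (h : Tri M v p q r) : p ∉ Submodule.span ℚ M := fun hm =>
  one_ne_zero (h.ind' 1 0 0 p hm (by simp)).1

lemma Tri.q1 (h : Tri M v p q r) : q ∉ Submodule.span ℚ M := fun hm =>
  one_ne_zero (h.ind' 0 1 0 q hm (by simp)).2

lemma Tri.r1 (h : Tri M v p q r) : r ∉ Submodule.span ℚ M := fun hm => by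
  have := (h.ind' (-1) (-1) (-1) r hm (by rw [h.sum]; module)).1
  norm_num at this

lemma Tri.pq (h : Tri M v p q r) : q ∉ Submodule.span ℚ (insert p M) := fun hm => by
  obtain ⟨a, w, hw, hq⟩ := Submodule.mem_span_insert.1 hm
  have := (h.ind' (-a) 1 0 w hw (by rw [hq]; module)).2
  norm_num at this

lemma Tri.pr (h : Tri M v p q r) : r ∉ Submodule.span ℚ (insert p M) := fun hm => by
  obtain ⟨a, w, hw, hr⟩ := Submodule.mem_span_insert.1 hm
  rw [h.sum] at hr
  have := (h.ind' (-1 - a) (-1) (-1) w hw (by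
    have h1 : w = v - p - q - a • p := by rw [hr]; module
    rw [h1]; module)).2
  norm_num at this

lemma Tri.qr (h : Tri M v p q r) : r ∉ Submodule.span ℚ (insert q M) := fun hm => by
  obtain ⟨a, w, hw, hr⟩ := Submodule.mem_span_insert.1 hm
  rw [h.sum] at hr
  have := (h.ind' (-1) (-1 - a) (-1) w hw (by
    have h1 : w = v - p - q - a • q := by rw [hr]; module
    rw [h1]; module)).1
  norm_num at this

lemma Tri.all (h : Tri M v p q r) {A : Set V} (hA : A ⊆ M) (hv : v ∉ Submodule.span ℚ A) :
    r ∉ Submodule.span ℚ (insert q (insert p A)) := fun hm => by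
  obtain ⟨a, w, hw, hr⟩ := Submodule.mem_span_insert.1 hm
  obtain ⟨b, w', hw', hw2⟩ := Submodule.mem_span_insert.1 hw
  rw [h.sum, hw2] at hr
  have h1 : w' = v - p - q - a • q - b • p := by rw [hr]; module
  have h2 := h.ind' (-1 - b) (-1 - a) (-1) w' (Submodule.span_mono hA hw') (by rw [h1]; module)
  have ha : a = -1 := by linarith [h2.2]
  have hb : b = -1 := by linarith [h2.1]
  apply hv
  have h3 : v = w' := by rw [h1, ha, hb]; module
  rw [h3]
  exact hw'

lemma Tri.r_eq (h : Tri M v p q r) : p + q + r = v := by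
  rw [h.sum]; module

/-- Two points of one class, the third alone. -/
lemma ext_alone {u : V} {A B : Set V} (hG : Gd u M A B) {x y z : V}
    (hx : x ∉ Submodule.span ℚ M) (hy : y ∉ Submodule.span ℚ M)
    (hz : z ∉ Submodule.span ℚ (insert y M)) (hxy : x ≠ y) (hxz : x ≠ z)
    (c1 : ∀ w ∈ A, dt (x - w) u ≠ 0) (c2 : ∀ w ∈ B, dt (y - w) u ≠ 0)
    (c3 : ∀ w ∈ B, dt (z - w) u ≠ 0) (c4 : dt (y - z) u ≠ 0) :
    ∃ A' B', A ⊆ A' ∧ B ⊆ B' ∧ Gd u (insert z (insert y (insert x M))) A' B' := by
  have hAM : A ⊆ M := by rw [← hG.un]; exact subset_union_left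
  have hBM : B ⊆ M := by rw [← hG.un]; exact subset_union_right
  have hzM : z ∉ insert y M := not_mem_of_span hz
  have h1 := hG.addA (not_mem_of_span hx) (fun h => hx (Submodule.span_mono hAM h)) c1
  have h2 := h1.addB (p := y) (by
    rintro (h | h)
    · exact hxy h.symm
    · exact not_mem_of_span hy h) (fun h => hy (Submodule.span_mono hBM h)) c2
  have h3 := h2.addB (p := z) (by
    rintro (h | h | h)
    · exact hzM (Or.inl h)
    · exact hxz h.symm
    · exact hzM (Or.inr h)) (fun h => hz (Submodule.span_mono (insert_subset_insert hBM) h)) (by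
    rintro w (rfl | hw)
    · exact fun h => c4 (dt_symm h)
    · exact c3 w hw)
  exact ⟨_, _, subset_insert _ _, (subset_insert _ _).trans (subset_insert _ _), h3⟩

lemma union_tri (M : Set V) (p q r : V) : M ∪ {p, q, r} = insert r (insert q (insert p M)) := by
  ext x; simp only [mem_union, mem_insert_iff, mem_singleton_iff]; tauto

lemma union_tri' (M : Set V) (p q r : V) : M ∪ {p, q, r} = insert r (insert p (insert q M)) := by
  ext x; simp only [mem_union, mem_insert_iff, mem_singleton_iff]; tauto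

lemma union_tri'' (M : Set V) (p q r : V) : M ∪ {p, q, r} = insert q (insert p (insert r M)) := by
  ext x; simp only [mem_union, mem_insert_iff, mem_singleton_iff]; tauto

/-- Every splitting extends to the three new points. -/
lemma Tri.ext (h : Tri M v p q r) : Ext M {p, q, r} := by
  intro u hu A B hG
  have hAM : A ⊆ M := by rw [← hG.un]; exact subset_union_left
  have hBM : B ⊆ M := by rw [← hG.un]; exact subset_union_right
  have hpq : p ≠ q := fun e => h.pq (Submodule.subset_span (Or.inl e.symm))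
  have hpr : p ≠ r := fun e => h.pr (Submodule.subset_span (Or.inl e.symm))
  have hqr : q ≠ r := fun e => h.qr (Submodule.subset_span (Or.inl e.symm))
  have hone := h.one u hu
  by_cases hc : ∃ e : Ed, e.ok M ∧ dt (e.dir p q r) u = 0
  · obtain ⟨e, heok, he⟩ := hc
    have hno : ∀ e' : Ed, e'.ok M → e' ≠ e → dt (e'.dir p q r) u ≠ 0 := fun e' h1 h2 h3 =>
      h2 (hone e' e h1 heok h3 he)
    cases e with
    | pp y =>
      have c4 := hno Ed.qr trivial (by simp)
      rcases (by rw [hG.un]; exact heok : y ∈ A ∪ B) with hy | hy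
      · obtain ⟨A', B', h1, h2, h3⟩ := ext_alone hG.symm h.p1 h.q1 h.qr hpq hpr
          (fun w hw => hno (Ed.pp w) (hBM hw) (by
            intro e; injection e with e; exact Set.disjoint_left.1 hG.dj hy (e ▸ hw)))
          (fun w hw => hno (Ed.qq w) (hAM hw) (by simp))
          (fun w hw => hno (Ed.rr w) (hAM hw) (by simp)) c4
        exact ⟨B', A', h2, h1, by rw [union_tri]; exact h3.symm⟩
      · obtain ⟨A', B', h1, h2, h3⟩ := ext_alone hG h.p1 h.q1 h.qr hpq hpr
          (fun w hw => hno (Ed.pp w) (hAM hw) (by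
            intro e; injection e with e; exact Set.disjoint_left.1 hG.dj hw (e ▸ hy)))
          (fun w hw => hno (Ed.qq w) (hBM hw) (by simp))
          (fun w hw => hno (Ed.rr w) (hBM hw) (by simp)) c4
        exact ⟨A', B', h1, h2, by rw [union_tri]; exact h3⟩
    | qq y =>
      have c4 := hno Ed.pr trivial (by simp)
      rcases (by rw [hG.un]; exact heok : y ∈ A ∪ B) with hy | hy
      · obtain ⟨A', B', h1, h2, h3⟩ := ext_alone hG.symm h.q1 h.p1 h.pr hpq.symm hqr
          (fun w hw => hno (Ed.qq w) (hBM hw) (by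
            intro e; injection e with e; exact Set.disjoint_left.1 hG.dj hy (e ▸ hw)))
          (fun w hw => hno (Ed.pp w) (hAM hw) (by simp))
          (fun w hw => hno (Ed.rr w) (hAM hw) (by simp)) c4
        exact ⟨B', A', h2, h1, by rw [union_tri']; exact h3.symm⟩
      · obtain ⟨A', B', h1, h2, h3⟩ := ext_alone hG h.q1 h.p1 h.pr hpq.symm hqr
          (fun w hw => hno (Ed.qq w) (hAM hw) (by
            intro e; injection e with e; exact Set.disjoint_left.1 hG.dj hw (e ▸ hy)))
          (fun w hw => hno (Ed.pp w) (hBM hw) (by simp))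
          (fun w hw => hno (Ed.rr w) (hBM hw) (by simp)) c4
        exact ⟨A', B', h1, h2, by rw [union_tri']; exact h3⟩
    | rr y =>
      have c4 := hno Ed.pq trivial (by simp)
      rcases (by rw [hG.un]; exact heok : y ∈ A ∪ B) with hy | hy
      · obtain ⟨A', B', h1, h2, h3⟩ := ext_alone hG.symm h.r1 h.p1 h.pq hpr.symm hqr.symm
          (fun w hw => hno (Ed.rr w) (hBM hw) (by
            intro e; injection e with e; exact Set.disjoint_left.1 hG.dj hy (e ▸ hw)))
          (fun w hw => hno (Ed.pp w) (hAM hw) (by simp))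
          (fun w hw => hno (Ed.qq w) (hAM hw) (by simp)) c4
        exact ⟨B', A', h2, h1, by rw [union_tri'']; exact h3.symm⟩
      · obtain ⟨A', B', h1, h2, h3⟩ := ext_alone hG h.r1 h.p1 h.pq hpr.symm hqr.symm
          (fun w hw => hno (Ed.rr w) (hAM hw) (by
            intro e; injection e with e; exact Set.disjoint_left.1 hG.dj hw (e ▸ hy)))
          (fun w hw => hno (Ed.pp w) (hBM hw) (by simp))
          (fun w hw => hno (Ed.qq w) (hBM hw) (by simp)) c4
        exact ⟨A', B', h1, h2, by rw [union_tri'']; exact h3⟩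
    | pq =>
      obtain ⟨A', B', h1, h2, h3⟩ := ext_alone hG h.p1 h.q1 h.qr hpq hpr
        (fun w hw => hno (Ed.pp w) (hAM hw) (by simp))
        (fun w hw => hno (Ed.qq w) (hBM hw) (by simp))
        (fun w hw => hno (Ed.rr w) (hBM hw) (by simp)) (hno Ed.qr trivial (by simp))
      exact ⟨A', B', h1, h2, by rw [union_tri]; exact h3⟩
    | pr =>
      obtain ⟨A', B', h1, h2, h3⟩ := ext_alone hG h.p1 h.q1 h.qr hpq hpr
        (fun w hw => hno (Ed.pp w) (hAM hw) (by simp))
        (fun w hw => hno (Ed.qq w) (hBM hw) (by simp))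
        (fun w hw => hno (Ed.rr w) (hBM hw) (by simp)) (hno Ed.qr trivial (by simp))
      exact ⟨A', B', h1, h2, by rw [union_tri]; exact h3⟩
    | qr =>
      obtain ⟨A', B', h1, h2, h3⟩ := ext_alone hG h.q1 h.p1 h.pr hpq.symm hqr
        (fun w hw => hno (Ed.qq w) (hAM hw) (by simp))
        (fun w hw => hno (Ed.pp w) (hBM hw) (by simp))
        (fun w hw => hno (Ed.rr w) (hBM hw) (by simp)) (hno Ed.pr trivial (by simp))
      exact ⟨A', B', h1, h2, by rw [union_tri']; exact h3⟩
  · push Not at hc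
    obtain ⟨A', B', h1, h2, h3⟩ := ext_alone hG h.p1 h.q1 h.qr hpq hpr
      (fun w hw => hc (Ed.pp w) (hAM hw)) (fun w hw => hc (Ed.qq w) (hBM hw))
      (fun w hw => hc (Ed.rr w) (hBM hw)) (hc Ed.qr trivial)
    exact ⟨A', B', h1, h2, by rw [union_tri]; exact h3⟩

/-- If no two points of `M ∪ {p, q, r}`, one of them new, are on a line of direction `u`, then
every splitting extends so that `v` is in the span of the first class. -/
lemma Tri.extA (h : Tri M v p q r) {u : V} (hu : u ≠ 0)
    (hno : ∀ e : Ed, e.ok M → dt (e.dir p q r) u ≠ 0) {A B : Set V} (hG : Gd u M A B) :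
    ∃ A' B', A ⊆ A' ∧ B ⊆ B' ∧ Gd u (M ∪ {p, q, r}) A' B' ∧ v ∈ Submodule.span ℚ A' := by
  have hAM : A ⊆ M := by rw [← hG.un]; exact subset_union_left
  by_cases hv : v ∈ Submodule.span ℚ A
  · obtain ⟨A', B', h1, h2, h3⟩ := h.ext u hu A B hG
    exact ⟨A', B', h1, h2, h3, Submodule.span_mono h1 hv⟩
  · have h1 := hG.addA (not_mem_of_span h.p1) (fun hm => h.p1 (Submodule.span_mono hAM hm))
      (fun w hw => hno (Ed.pp w) (hAM hw))
    have h2 := h1.addA (p := q) (not_mem_of_span h.pq)
      (fun hm => h.pq (Submodule.span_mono (insert_subset_insert hAM) hm)) (by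
      rintro w (rfl | hw)
      · exact fun e => hno Ed.pq trivial (dt_symm e)
      · exact hno (Ed.qq w) (hAM hw))
    have h3 := h2.addA (p := r) (by
      rintro (e | e | e)
      · exact h.qr (Submodule.subset_span (Or.inl e))
      · exact h.pr (Submodule.subset_span (Or.inl e))
      · exact h.r1 (Submodule.subset_span e)) (h.all hAM hv) (by
      rintro w (rfl | rfl | hw)
      · exact fun e => hno Ed.qr trivial (dt_symm e)
      · exact fun e => hno Ed.pr trivial (dt_symm e)
      · exact hno (Ed.rr w) (hAM hw))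
    refine ⟨_, _, ?_, Subset.rfl, by rw [union_tri]; exact h3, ?_⟩
    · exact (subset_insert _ _).trans ((subset_insert _ _).trans (subset_insert _ _))
    · rw [← h.r_eq]
      refine Submodule.add_mem _ (Submodule.add_mem _ ?_ ?_) ?_
      · exact Submodule.subset_span (Or.inr (Or.inr (Or.inl rfl)))
      · exact Submodule.subset_span (Or.inr (Or.inl rfl))
      · exact Submodule.subset_span (Or.inl rfl)

lemma Tri.extT (h : Tri M v p q r) {u : V} (hu : u ≠ 0)
    (hno : ∀ e : Ed, e.ok M → dt (e.dir p q r) u ≠ 0) (X : Bool) :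
    ExtT M {p, q, r} v u X := by
  intro A B hG
  cases X with
  | true =>
    obtain ⟨A', B', h1, h2, h3, h4⟩ := h.extA hu hno hG
    exact ⟨A', B', h1, h2, h3, by simpa using h4⟩
  | false =>
    obtain ⟨A', B', h1, h2, h3, h4⟩ := h.extA hu hno hG.symm
    exact ⟨B', A', h2, h1, h3.symm, by simpa using h4⟩

end

end Pool.Agent.Q304.Ham
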