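import Pool.Agent.Q304.Ham.Block

/-!
Existence of the new points.
-/

open Set Cardinal

namespace Pool.Agent.Q304.Ham

open Pool.Agent.Q304.SH (small_biUnion small_union small_prod small_mono)

lemma dt_self (u : V) : dt u u = 0 := by unfold dt; ring

lemma small_insert {α : Type} {S : Set α} (h : #S < 𝔠) (x : α) : #(insert x S : Set α) < 𝔠 :=
  (mk_insert_le).trans_lt (add_lt_of_lt aleph0_lt_continuum.le h
    (one_lt_aleph0.trans aleph0_lt_continuum))

/-- The center of a pair: the difference of its points is a multiple of `q - c`. -/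
noncomputable def ctr (v p : V) : Ed → V
  | .pp y => y
  | .qq y => y
  | .rr y => v - p - y
  | .pq => p
  | .pr => v - (2 : ℚ) • p
  | .qr => (1 / 2 : ℚ) • (v - p)

lemma dir_ctr (v p q : V) (e : Ed) (he : ∀ y, e ≠ .pp y) (u : V) :
    dt (e.dir p q (v - p - q)) u = 0 ↔ dt (q - ctr v p e) u = 0 := by
  have e2 : ∀ x : V, ((2 : ℚ) • x).1 = 2 * x.1 ∧ ((2 : ℚ) • x).2 = 2 * x.2 := by
    intro x
    rw [Prod.smul_fst, Prod.smul_snd, Rat.smul_def, Rat.smul_def]
    norm_num
  have e3 : ∀ x : V, ((1 / 2 : ℚ) • x).1 = 1 / 2 * x.1 ∧ ((1 / 2 : ℚ) • x).2 = 1 / 2 * x.2 := by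
    intro x
    rw [Prod.smul_fst, Prod.smul_snd, Rat.smul_def, Rat.smul_def]
    norm_num
  cases e with
  | pp y => exact absurd rfl (he y)
  | qq y => rfl
  | rr y =>
    simp only [Ed.dir, ctr, dt, Prod.fst_sub, Prod.snd_sub]
    constructor <;> intro h <;> linarith
  | pq =>
    simp only [Ed.dir, ctr, dt, Prod.fst_sub, Prod.snd_sub]
    constructor <;> intro h <;> linarith
  | pr =>
    simp only [Ed.dir, ctr, dt, Prod.fst_sub, Prod.snd_sub, (e2 p).1, (e2 p).2]
    constructor <;> intro h <;> linarith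
  | qr =>
    simp only [Ed.dir, ctr, dt, Prod.fst_sub, Prod.snd_sub, (e3 (v - p)).1, (e3 (v - p)).2]
    constructor <;> intro h <;> linarith

lemma ctr_inj {M : Set V} {v p : V} (hp : p ∉ Submodule.span ℚ (insert v M)) {e e' : Ed}
    (he : ∀ y, e ≠ .pp y) (he' : ∀ y, e' ≠ .pp y) (ho : e.ok M) (ho' : e'.ok M)
    (h : ctr v p e = ctr v p e') : e = e' := by
  set W := Submodule.span ℚ (insert v M) with hW
  have hv : v ∈ W := Submodule.subset_span (mem_insert _ _)
  have hM : ∀ y ∈ M, y ∈ W := fun y hy => Submodule.subset_span (Or.inr hy)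
  -- a relation `p = w` with `w ∈ W` is impossible
  have key : ∀ w : V, w ∈ W → p ≠ w := fun w hw e => hp (e ▸ hw)
  cases e with
  | pp y => exact absurd rfl (he y)
  | qq y =>
    cases e' with
    | pp y' => exact absurd rfl (he' y')
    | qq y' => simp only [ctr] at h; rw [h]
    | rr y' =>
      simp only [ctr] at h
      refine absurd ?_ (key (v - y' - y) (W.sub_mem (W.sub_mem hv (hM _ ho')) (hM _ ho)))
      rw [h]; module
    | pq => simp only [ctr] at h; exact absurd h.symm (key _ (hM _ ho))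
    | pr =>
      simp only [ctr] at h
      refine absurd ?_ (key ((1 / 2 : ℚ) • (v - y)) (W.smul_mem _ (W.sub_mem hv (hM _ ho))))
      rw [h]; module
    | qr =>
      simp only [ctr] at h
      refine absurd ?_ (key (v - (2 : ℚ) • y) (W.sub_mem hv (W.smul_mem _ (hM _ ho))))
      rw [h]; module
  | rr y =>
    cases e' with
    | pp y' => exact absurd rfl (he' y')
    | qq y' =>
      simp only [ctr] at h
      refine absurd ?_ (key (v - y - y') (W.sub_mem (W.sub_mem hv (hM _ ho)) (hM _ ho')))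
      rw [← h]; module
    | rr y' =>
      simp only [ctr] at h
      have : y = y' := sub_right_injective h
      rw [this]
    | pq =>
      simp only [ctr] at h
      refine absurd ?_ (key ((1 / 2 : ℚ) • (v - y)) (W.smul_mem _ (W.sub_mem hv (hM _ ho))))
      have h2 : v - y = (2 : ℚ) • p := by
        have : v - y = (v - p - y) + p := by module
        rw [this, h]; module
      rw [h2]; module
    | pr =>
      simp only [ctr] at h
      refine absurd ?_ (key y (hM _ ho))
      have h2 : p = (v - p - y) - (v - (2 : ℚ) • p) + y := by module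
      rw [h2, h]; module
    | qr =>
      simp only [ctr] at h
      refine absurd ?_ (key (v - (2 : ℚ) • y) (W.sub_mem hv (W.smul_mem _ (hM _ ho))))
      have h2 : p = v - (2 : ℚ) • y - (2 : ℚ) • ((v - p - y) - (1 / 2 : ℚ) • (v - p)) := by module
      rw [h2, h]; module
  | pq =>
    cases e' with
    | pp y' => exact absurd rfl (he' y')
    | qq y' => simp only [ctr] at h; exact absurd h (key _ (hM _ ho'))
    | rr y' =>
      simp only [ctr] at h
      refine absurd ?_ (key ((1 / 2 : ℚ) • (v - y')) (W.smul_mem _ (W.sub_mem hv (hM _ ho'))))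
      have h2 : v - y' = (2 : ℚ) • p := by
        have : v - y' = (v - p - y') + p := by module
        rw [this, ← h]; module
      rw [h2]; module
    | pq => rfl
    | pr =>
      simp only [ctr] at h
      refine absurd ?_ (key ((1 / 3 : ℚ) • v) (W.smul_mem _ hv))
      have h2 : p = (1 / 3 : ℚ) • v + (1 / 3 : ℚ) • (p - (v - (2 : ℚ) • p)) := by module
      rw [h2, ← h]; module
    | qr =>
      simp only [ctr] at h
      refine absurd ?_ (key ((1 / 3 : ℚ) • v) (W.smul_mem _ hv))
      have h2 : p = (1 / 3 : ℚ) • v + (2 / 3 : ℚ) • (p - (1 / 2 : ℚ) • (v - p)) := by module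
      rw [h2, ← h]; module
  | pr =>
    cases e' with
    | pp y' => exact absurd rfl (he' y')
    | qq y' =>
      simp only [ctr] at h
      refine absurd ?_ (key ((1 / 2 : ℚ) • (v - y')) (W.smul_mem _ (W.sub_mem hv (hM _ ho'))))
      rw [← h]; module
    | rr y' =>
      simp only [ctr] at h
      refine absurd ?_ (key y' (hM _ ho'))
      have h2 : p = (v - p - y') - (v - (2 : ℚ) • p) + y' := by module
      rw [h2, h]; module
    | pq =>
      simp only [ctr] at h
      refine absurd ?_ (key ((1 / 3 : ℚ) • v) (W.smul_mem _ hv))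
      have h2 : p = (1 / 3 : ℚ) • v + (1 / 3 : ℚ) • (p - (v - (2 : ℚ) • p)) := by module
      rw [h2, h]; module
    | pr => rfl
    | qr =>
      simp only [ctr] at h
      refine absurd ?_ (key ((1 / 3 : ℚ) • v) (W.smul_mem _ hv))
      have h2 : p = (1 / 3 : ℚ) • v -
          (2 / 3 : ℚ) • ((v - (2 : ℚ) • p) - (1 / 2 : ℚ) • (v - p)) := by module
      rw [h2, h]; module
  | qr =>
    cases e' with
    | pp y' => exact absurd rfl (he' y')
    | qq y' =>
      simp only [ctr] at h
      refine absurd ?_ (key (v - (2 : ℚ) • y') (W.sub_mem hv (W.smul_mem _ (hM _ ho'))))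
      rw [← h]; module
    | rr y' =>
      simp only [ctr] at h
      refine absurd ?_ (key (v - (2 : ℚ) • y') (W.sub_mem hv (W.smul_mem _ (hM _ ho'))))
      have h2 : p = v - (2 : ℚ) • y' - (2 : ℚ) • ((v - p - y') - (1 / 2 : ℚ) • (v - p)) := by
        module
      rw [h2, h]; module
    | pq =>
      simp only [ctr] at h
      refine absurd ?_ (key ((1 / 3 : ℚ) • v) (W.smul_mem _ hv))
      have h2 : p = (1 / 3 : ℚ) • v + (2 / 3 : ℚ) • (p - (1 / 2 : ℚ) • (v - p)) := by module
      rw [h2, h]; module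
    | pr =>
      simp only [ctr] at h
      refine absurd ?_ (key ((1 / 3 : ℚ) • v) (W.smul_mem _ hv))
      have h2 : p = (1 / 3 : ℚ) • v -
          (2 / 3 : ℚ) • ((v - (2 : ℚ) • p) - (1 / 2 : ℚ) • (v - p)) := by module
      rw [h2, h]; module
    | qr => rfl

/-- No three points are collinear. -/
def N3 (M : Set V) : Prop := ∀ p ∈ M, ∀ q ∈ M, ∀ r ∈ M, p ≠ q → p ≠ r → q ≠ r →
  dt (q - p) (r - p) ≠ 0

/-- Existence of three generic points. -/
lemma exists_tri {M : Set V} (hM : #M < 𝔠) (v u : V) (hu : u ≠ 0) :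
    ∃ p q r : V, Tri M v p q r ∧ ∀ e : Ed, e.ok M → dt (e.dir p q r) u ≠ 0 := by
  classical
  have h10 : ((1, 0) : V) ≠ 0 := by
    intro h
    have := congrArg Prod.fst h
    norm_num at this
  -- choice of `p`
  let C1 : Set (V × V) := ((fun x : V × V => (x.1, x.2 - x.1)) '' ((M ×ˢ M) \ {x | x.1 = x.2})) ∪
    ((fun y => (y, u)) '' M ∪ (fun s => (s, ((1, 0) : V))) '' (Submodule.span ℚ (insert v M)))
  have hC1 : #C1 < 𝔠 := by
    refine small_union (small_image (small_mono sdiff_subset (small_prod hM hM)) _)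
      (small_union (small_image hM _) (small_image (small_span (small_insert hM v)) _))
  obtain ⟨p, hp⟩ := plane_avoid hC1 (by
    rintro q (⟨x, hx, rfl⟩ | ⟨y, hy, rfl⟩ | ⟨s, hs, rfl⟩)
    · exact fun h => hx.2 (sub_eq_zero.1 h).symm
    · exact hu
    · exact h10)
  have hp1 : ∀ y ∈ M, ∀ y' ∈ M, y ≠ y' → dt (p - y) (y' - y) ≠ 0 := fun y hy y' hy' h =>
    hp (y, y' - y) (Or.inl ⟨(y, y'), ⟨⟨hy, hy'⟩, h⟩, rfl⟩)
  have hp2 : ∀ y ∈ M, dt (p - y) u ≠ 0 := fun y hy => hp (y, u) (Or.inr (Or.inl ⟨y, hy, rfl⟩))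
  have hp3 : p ∉ Submodule.span ℚ (insert v M) := by
    intro h
    have := hp (p, (1, 0)) (Or.inr (Or.inr ⟨p, h, rfl⟩))
    apply this
    simp [dt]
  -- centers
  let Cen : Set V := {c | ∃ e : Ed, e.ok M ∧ (∀ y, e ≠ .pp y) ∧ ctr v p e = c}
  have hCen : #Cen < 𝔠 := by
    have hsub : Cen ⊆ M ∪ ((fun y => v - p - y) '' M ∪
        {p, v - (2 : ℚ) • p, (1 / 2 : ℚ) • (v - p)}) := by
      rintro c ⟨e, ho, hne, rfl⟩
      cases e with
      | pp y => exact absurd rfl (hne y)
      | qq y => exact Or.inl ho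
      | rr y => exact Or.inr (Or.inl ⟨y, ho, rfl⟩)
      | pq => exact Or.inr (Or.inr (Or.inl rfl))
      | pr => exact Or.inr (Or.inr (Or.inr (Or.inl rfl)))
      | qr => exact Or.inr (Or.inr (Or.inr (Or.inr rfl)))
    refine small_mono hsub (small_union hM (small_union (small_image hM _) ?_))
    have : ({p, v - (2 : ℚ) • p, (1 / 2 : ℚ) • (v - p)} : Set V).Countable :=
      (Set.toFinite _).countable
    exact this.le_aleph0.trans_lt aleph0_lt_continuum
  -- choice of `q`
  let C2 : Set (V × V) := ((fun x : V × V => (x.1, x.2 - x.1)) '' ((Cen ×ˢ Cen) \ {x | x.1 = x.2})) ∪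
    ((fun y => (y, u)) '' Cen ∪ ((fun x : V × V => (x.1, p - x.2)) '' (Cen ×ˢ M) ∪
      (fun s => (s, ((1, 0) : V))) '' (Submodule.span ℚ (insert p (insert v M)))))
  have hC2 : #C2 < 𝔠 := by
    refine small_union (small_image (small_mono sdiff_subset (small_prod hCen hCen)) _)
      (small_union (small_image hCen _) (small_union (small_image (small_prod hCen hM) _)
      (small_image (small_span (small_insert (small_insert hM v) p)) _)))
  obtain ⟨q, hq⟩ := plane_avoid hC2 (by
    rintro q (⟨x, hx, rfl⟩ | ⟨y, hy, rfl⟩ | ⟨x, hx, rfl⟩ | ⟨s, hs, rfl⟩)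
    · exact fun h => hx.2 (sub_eq_zero.1 h).symm
    · exact hu
    · intro h
      have h2 : p = x.2 := sub_eq_zero.1 h
      exact hp3 (h2 ▸ Submodule.subset_span (Or.inr hx.2))
    · exact h10)
  have hq1 : ∀ c ∈ Cen, ∀ c' ∈ Cen, c ≠ c' → dt (q - c) (c' - c) ≠ 0 := fun y hy y' hy' h =>
    hq (y, y' - y) (Or.inl ⟨(y, y'), ⟨⟨hy, hy'⟩, h⟩, rfl⟩)
  have hq2 : ∀ c ∈ Cen, dt (q - c) u ≠ 0 := fun y hy =>
    hq (y, u) (Or.inr (Or.inl ⟨y, hy, rfl⟩))
  have hq3 : ∀ c ∈ Cen, ∀ y ∈ M, dt (q - c) (p - y) ≠ 0 := fun c hc y hy =>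
    hq (c, p - y) (Or.inr (Or.inr (Or.inl ⟨(c, y), ⟨hc, hy⟩, rfl⟩)))
  have hq4 : q ∉ Submodule.span ℚ (insert p (insert v M)) := by
    intro h
    have := hq (q, (1, 0)) (Or.inr (Or.inr (Or.inr ⟨q, h, rfl⟩)))
    apply this
    simp [dt]
  have hpp : ∀ e : Ed, (∃ y, e = .pp y) ∨ ∀ y, e ≠ .pp y := by
    intro e
    by_cases h : ∃ y, e = .pp y
    · exact Or.inl h
    · exact Or.inr fun y hy => h ⟨y, hy⟩
  refine ⟨p, q, v - p - q, ⟨rfl, hp3, hq4, ?_⟩, ?_⟩
  · intro w hw e e' ho ho' h h'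
    rcases hpp e with ⟨y, rfl⟩ | he
    · rcases hpp e' with ⟨y', rfl⟩ | he'
      · by_contra hne
        have hyy : y ≠ y' := fun e => hne (by rw [e])
        refine hp1 y ho y' ho' hyy (dt_par hw h ?_)
        simp only [Ed.dir, dt, Prod.fst_sub, Prod.snd_sub] at *
        linarith
      · exfalso
        rw [dir_ctr v p q e' he' w] at h'
        exact hq3 _ ⟨e', ho', he', rfl⟩ y ho (dt_par hw h' h)
    · rcases hpp e' with ⟨y', rfl⟩ | he'
      · exfalso
        rw [dir_ctr v p q e he w] at h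
        exact hq3 _ ⟨e, ho, he, rfl⟩ y' ho' (dt_par hw h h')
      · rw [dir_ctr v p q e he w] at h
        rw [dir_ctr v p q e' he' w] at h'
        by_cases hcc : ctr v p e = ctr v p e'
        · exact ctr_inj hp3 he he' ho ho' hcc
        · exfalso
          refine hq1 _ ⟨e, ho, he, rfl⟩ _ ⟨e', ho', he', rfl⟩ hcc (dt_par hw h ?_)
          simp only [dt, Prod.fst_sub, Prod.snd_sub] at *
          linarith
  · intro e ho
    rcases hpp e with ⟨y, rfl⟩ | he
    · exact hp2 y ho
    · intro h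
      rw [dir_ctr v p q e he u] at h
      exact hq2 _ ⟨e, ho, he, rfl⟩ h

lemma Tri.col {M : Set V} {v p q r : V} (h : Tri M v p q r) {x y z w : V} (hw : w ≠ 0)
    (hx : x = p ∨ x = q ∨ x = r) (hy : y ∈ M ∨ y = p ∨ y = q ∨ y = r)
    (hz : z ∈ M ∨ z = p ∨ z = q ∨ z = r) (hxy : x ≠ y) (hxz : x ≠ z) (h1 : dt (x - y) w = 0)
    (h2 : dt (x - z) w = 0) : y = z := by
  have hone := h.one w hw
  rcases hx with rfl | rfl | rfl
  · rcases hy with hy | rfl | rfl | rfl
    · rcases hz with hz | rfl | rfl | rfl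
      · have := hone (Ed.pp y) (Ed.pp z) hy hz h1 h2
        injection this
      · exact absurd rfl hxz
      · exact absurd (hone (Ed.pp y) Ed.pq hy trivial h1 h2) (by simp)
      · exact absurd (hone (Ed.pp y) Ed.pr hy trivial h1 h2) (by simp)
    · exact absurd rfl hxy
    · rcases hz with hz | rfl | rfl | rfl
      · exact absurd (hone Ed.pq (Ed.pp z) trivial hz h1 h2) (by simp)
      · exact absurd rfl hxz
      · rfl
      · exact absurd (hone Ed.pq Ed.pr trivial trivial h1 h2) (by simp)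
    · rcases hz with hz | rfl | rfl | rfl
      · exact absurd (hone Ed.pr (Ed.pp z) trivial hz h1 h2) (by simp)
      · exact absurd rfl hxz
      · exact absurd (hone Ed.pr Ed.pq trivial trivial h1 h2) (by simp)
      · rfl
  · rcases hy with hy | rfl | rfl | rfl
    · rcases hz with hz | rfl | rfl | rfl
      · have := hone (Ed.qq y) (Ed.qq z) hy hz h1 h2
        injection this
      · exact absurd (hone (Ed.qq y) Ed.pq hy trivial h1 (dt_symm h2)) (by simp)
      · exact absurd rfl hxz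
      · exact absurd (hone (Ed.qq y) Ed.qr hy trivial h1 h2) (by simp)
    · rcases hz with hz | rfl | rfl | rfl
      · exact absurd (hone Ed.pq (Ed.qq z) trivial hz (dt_symm h1) h2) (by simp)
      · rfl
      · exact absurd rfl hxz
      · exact absurd (hone Ed.pq Ed.qr trivial trivial (dt_symm h1) h2) (by simp)
    · exact absurd rfl hxy
    · rcases hz with hz | rfl | rfl | rfl
      · exact absurd (hone Ed.qr (Ed.qq z) trivial hz h1 h2) (by simp)
      · exact absurd (hone Ed.qr Ed.pq trivial trivial h1 (dt_symm h2)) (by simp)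
      · exact absurd rfl hxz
      · rfl
  · rcases hy with hy | rfl | rfl | rfl
    · rcases hz with hz | rfl | rfl | rfl
      · have := hone (Ed.rr y) (Ed.rr z) hy hz h1 h2
        injection this
      · exact absurd (hone (Ed.rr y) Ed.pr hy trivial h1 (dt_symm h2)) (by simp)
      · exact absurd (hone (Ed.rr y) Ed.qr hy trivial h1 (dt_symm h2)) (by simp)
      · exact absurd rfl hxz
    · rcases hz with hz | rfl | rfl | rfl
      · exact absurd (hone Ed.pr (Ed.rr z) trivial hz (dt_symm h1) h2) (by simp)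
      · rfl
      · exact absurd (hone Ed.pr Ed.qr trivial trivial (dt_symm h1) (dt_symm h2)) (by simp)
      · exact absurd rfl hxz
    · rcases hz with hz | rfl | rfl | rfl
      · exact absurd (hone Ed.qr (Ed.rr z) trivial hz (dt_symm h1) h2) (by simp)
      · exact absurd (hone Ed.qr Ed.pr trivial trivial (dt_symm h1) (dt_symm h2)) (by simp)
      · rfl
      · exact absurd rfl hxz
    · exact absurd rfl hxy

lemma N3.tri {M : Set V} (hM : N3 M) {v p q r : V} (h : Tri M v p q r) : N3 (M ∪ {p, q, r}) := by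
  intro a ha b hb c hc hab hac hbc hdt
  have hw : b - a ≠ 0 := fun e => hab (sub_eq_zero.1 e).symm
  have e1 : dt (a - b) (b - a) = 0 := by
    simp only [dt, Prod.fst_sub, Prod.snd_sub]; ring
  have e2 : dt (a - c) (b - a) = 0 := by
    simp only [dt, Prod.fst_sub, Prod.snd_sub] at *; linarith
  have e3 : dt (b - c) (b - a) = 0 := by
    simp only [dt, Prod.fst_sub, Prod.snd_sub] at *; linarith
  by_cases ha' : a = p ∨ a = q ∨ a = r
  · exact hbc (h.col hw ha' hb hc hab hac e1 e2)
  · by_cases hb' : b = p ∨ b = q ∨ b = r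
    · exact hac (h.col hw hb' ha hc hab.symm hbc (dt_symm e1) e3)
    · by_cases hc' : c = p ∨ c = q ∨ c = r
      · exact hab (h.col hw hc' ha hb hac.symm hbc.symm (dt_symm e2) (dt_symm e3))
      · have f1 : a ∈ M := ha.resolve_right ha'
        have f2 : b ∈ M := hb.resolve_right hb'
        have f3 : c ∈ M := hc.resolve_right hc'
        exact hM a f1 b f2 c f3 hab hac hbc hdt

lemma N3.single {M : Set V} (hM : N3 M) {p : V} (hpM : p ∉ M)
    (hl : ∀ q ∈ M, ∀ q' ∈ M, q ≠ q' → dt (p - q) (q' - q) ≠ 0) : N3 (M ∪ {p}) := by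
  intro a ha b hb c hc hab hac hbc hdt
  rcases ha with ha | rfl
  · rcases hb with hb | rfl
    · rcases hc with hc | rfl
      · exact hM a ha b hb c hc hab hac hbc hdt
      · refine hl a ha b hb hab ?_
        simp only [dt, Prod.fst_sub, Prod.snd_sub] at *; linarith
    · rcases hc with hc | rfl
      · exact hl a ha c hc hac hdt
      · exact hbc rfl
  · rcases hb with hb | rfl
    · rcases hc with hc | rfl
      · refine hl b hb c hc hbc ?_
        simp only [dt, Prod.fst_sub, Prod.snd_sub] at *; linarith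
      · exact hac rfl
    · exact hab rfl

/-- Existence of one generic point on a line that does not yet contain two points. -/
lemma exists_single {M : Set V} (hM : #M < 𝔠) {c u : V} (hu : u ≠ 0)
    (hl : ¬ ∃ p ∈ M, ∃ q ∈ M, p ≠ q ∧ dt (p - c) u = 0 ∧ dt (q - c) u = 0) :
    ∃ p, dt (p - c) u = 0 ∧ p ∉ Submodule.span ℚ M ∧
      ∀ q ∈ M, ∀ q' ∈ M, q ≠ q' → dt (p - q) (q' - q) ≠ 0 := by
  let u' : V := (-u.2, u.1)
  have hu' : dt u' u ≠ 0 := by
    simp only [dt, u']
    intro h
    have h1 : u.1 * u.1 + u.2 * u.2 = 0 := by linarith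
    have h2 : u.1 = 0 := by nlinarith [mul_self_nonneg u.1, mul_self_nonneg u.2]
    have h3 : u.2 = 0 := by nlinarith [mul_self_nonneg u.1, mul_self_nonneg u.2]
    exact hu (Prod.ext h2 h3)
  have hu'0 : u' ≠ 0 := by
    intro h
    rw [h] at hu'
    simp [dt] at hu'
  let C : Set (V × V) := ((fun x : V × V => (x.1, x.2 - x.1)) '' ((M ×ˢ M) \ {x | x.1 = x.2})) ∪
    (fun s => (s, u')) '' (Submodule.span ℚ M)
  have hC : #C < 𝔠 := small_union (small_image (small_mono sdiff_subset (small_prod hM hM)) _)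
    (small_image (small_span hM) _)
  obtain ⟨p, hp, hpC⟩ := line_avoid hu hC (by
    rintro q (⟨x, hx, rfl⟩ | ⟨s, hs, rfl⟩)
    · exact fun h => hx.2 (sub_eq_zero.1 h).symm
    · exact hu'0) (by
    rintro q (⟨x, hx, rfl⟩ | ⟨s, hs, rfl⟩)
    · rintro ⟨h1, h2⟩
      refine hl ⟨x.1, hx.1.1, x.2, hx.1.2, hx.2, h2, ?_⟩
      simp only [dt, Prod.fst_sub, Prod.snd_sub] at *; linarith
    · rintro ⟨h1, _⟩
      exact hu' h1)
  refine ⟨p, hp, ?_, fun q hq q' hq' h => hpC (q, q' - q) (Or.inl ⟨(q, q'), ⟨⟨hq, hq'⟩, h⟩, rfl⟩)⟩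
  intro h
  have := hpC (p, u') (Or.inr ⟨p, h, rfl⟩)
  apply this
  simp [dt]

end Pool.Agent.Q304.Ham
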