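import Pool.Agent.Q304.SH.Gen

/-!
Plane geometry with fewer than continuum many constraints, and a general recursion lemma.
-/

open Set Cardinal

namespace Pool.Agent.Q304.Ham

open Pool.Agent.Q304.SH (small_biUnion small_union small_prod small_mono)

/-- The plane. -/
abbrev V := ℝ × ℝ

/-- The determinant; `dt w u = 0` says that `w` is parallel to `u`. -/
def dt (u w : V) : ℝ := u.1 * w.2 - u.2 * w.1

lemma dt_par {u a b : V} (hu : u ≠ 0) (ha : dt a u = 0) (hb : dt b u = 0) : dt a b = 0 := by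
  unfold dt at *
  by_cases h1 : u.1 = 0
  · have h2 : u.2 ≠ 0 := by
      intro h2
      exact hu (Prod.ext h1 h2)
    rw [h1] at ha hb
    have h3 : a.1 = 0 := by
      have : a.1 * u.2 = 0 := by linarith
      exact (mul_eq_zero.1 this).resolve_right h2
    have h4 : b.1 = 0 := by
      have : b.1 * u.2 = 0 := by linarith
      exact (mul_eq_zero.1 this).resolve_right h2
    rw [h3, h4]; ring
  · have h3 : a.2 = a.1 * u.2 / u.1 := by field_simp; linarith
    have h4 : b.2 = b.1 * u.2 / u.1 := by field_simp; linarith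
    rw [h3, h4]; ring

lemma exists_notMem_of_small {S : Set ℝ} (h : #S < 𝔠) : ∃ x, x ∉ S := by
  by_contra hcon
  push Not at hcon
  have : S = Set.univ := eq_univ_of_forall hcon
  rw [this, mk_univ, mk_real] at h
  exact lt_irrefl _ h

lemma small_image {α β : Type} {S : Set α} (h : #S < 𝔠) (f : α → β) : #(f '' S) < 𝔠 :=
  mk_image_le.trans_lt h

/-- Fewer than continuum many lines do not cover the plane. -/
lemma plane_avoid {C : Set (V × V)} (hC : #C < 𝔠) (hne : ∀ q ∈ C, q.2 ≠ 0) :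
    ∃ p : V, ∀ q ∈ C, dt (p - q.1) q.2 ≠ 0 := by
  obtain ⟨x, hx⟩ := exists_notMem_of_small (small_image hC fun q => q.1.1)
  obtain ⟨y, hy⟩ := exists_notMem_of_small
    (small_image hC fun q => q.1.2 + (x - q.1.1) * q.2.2 / q.2.1)
  refine ⟨(x, y), fun q hq h => ?_⟩
  unfold dt at h
  simp only [Prod.fst_sub, Prod.snd_sub] at h
  by_cases h1 : q.2.1 = 0
  · have h2 : q.2.2 ≠ 0 := fun h2 => hne q hq (Prod.ext h1 h2)
    rw [h1] at h
    have h3 : (x - q.1.1) * q.2.2 = 0 := by linarith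
    have h4 := (mul_eq_zero.1 h3).resolve_right h2
    exact hx ⟨q, hq, by linarith⟩
  · apply hy
    refine ⟨q, hq, ?_⟩
    have : (x - q.1.1) * q.2.2 / q.2.1 = y - q.1.2 := by
      field_simp
      linarith
    simp only [this]
    ring

/-- Fewer than continuum many other lines do not cover a line. -/
lemma line_avoid {c₀ u₀ : V} (hu₀ : u₀ ≠ 0) {C : Set (V × V)} (hC : #C < 𝔠)
    (hne : ∀ q ∈ C, q.2 ≠ 0) (hl : ∀ q ∈ C, ¬ (dt q.2 u₀ = 0 ∧ dt (q.1 - c₀) u₀ = 0)) :
    ∃ p : V, dt (p - c₀) u₀ = 0 ∧ ∀ q ∈ C, dt (p - q.1) q.2 ≠ 0 := by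
  obtain ⟨t, ht⟩ := exists_notMem_of_small
    (small_image hC fun q => - dt (c₀ - q.1) q.2 / dt u₀ q.2)
  refine ⟨c₀ + (t * u₀.1, t * u₀.2), ?_, fun q hq h => ?_⟩
  · unfold dt
    simp only [add_sub_cancel_left]
    ring
  · have h1 : dt (c₀ + (t * u₀.1, t * u₀.2) - q.1) q.2 = dt (c₀ - q.1) q.2 + t * dt u₀ q.2 := by
      unfold dt
      simp only [Prod.fst_sub, Prod.snd_sub, Prod.fst_add, Prod.snd_add]
      ring
    rw [h1] at h
    by_cases h2 : dt u₀ q.2 = 0
    · rw [h2] at h
      have h3 : dt (c₀ - q.1) q.2 = 0 := by linarith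
      apply hl q hq
      have h4 : dt q.2 u₀ = 0 := by unfold dt at *; linarith
      refine ⟨h4, ?_⟩
      have h5 : dt u₀ q.2 = 0 := h2
      have h6 := dt_par (hne q hq) h3 h5
      unfold dt at *
      simp only [Prod.fst_sub, Prod.snd_sub] at *
      linarith
    · apply ht
      refine ⟨q, hq, ?_⟩
      simp only
      field_simp
      linarith

lemma small_span {S : Set V} (hS : #S < 𝔠) : #(Submodule.span ℚ S : Set V) < 𝔠 := by
  rcases S.eq_empty_or_nonempty with h | h
  · subst h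
    rw [Submodule.span_empty]
    have : ((⊥ : Submodule ℚ V) : Set V) = {0} := rfl
    rw [this, mk_singleton]
    exact one_lt_aleph0.trans aleph0_lt_continuum
  · have : Nonempty S := h.to_subtype
    rw [Finsupp.span_eq_range_linearCombination]
    have h1 : #(LinearMap.range (Finsupp.linearCombination ℚ ((↑) : S → V)) : Set V) ≤
        #(S →₀ ℚ) := mk_range_le
    refine h1.trans_lt ?_
    rw [mk_finsupp_of_infinite']
    exact max_lt hS (by rw [Cardinal.mkRat]; exact aleph0_lt_continuum)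

/-- Transfinite recursion with an invariant. -/
lemma trec {Θ T : Type} [LinearOrder Θ] [WellFoundedLT Θ] [Nonempty T]
    (P : (Θ → T) → Θ → T → Prop)
    (hloc : ∀ f g θ t, (∀ η < θ, f η = g η) → (P f θ t ↔ P g θ t))
    (hex : ∀ f θ, (∀ η < θ, P f η (f η)) → ∃ t, P f θ t) : ∃ f : Θ → T, ∀ θ, P f θ (f θ) := by
  classical
  obtain ⟨t₀⟩ := (inferInstance : Nonempty T)
  let ext : (θ : Θ) → ((η : Θ) → η < θ → T) → Θ → T := fun θ f η =>
    if h : η < θ then f η h else t₀
  let F : (θ : Θ) → ((η : Θ) → η < θ → T) → T := fun θ f =>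
    if h : ∃ t, P (ext θ f) θ t then h.choose else t₀
  let R : Θ → T := (wellFounded_lt (α := Θ)).fix F
  have hR : ∀ θ, R θ = F θ (fun η _ => R η) := fun θ => WellFounded.fix_eq _ _ _
  have hext : ∀ θ : Θ, ∀ η < θ, ext θ (fun η _ => R η) η = R η := by
    intro θ η h
    simp only [ext]
    exact dif_pos h
  refine ⟨R, fun θ => ?_⟩
  induction θ using (wellFounded_lt (α := Θ)).induction with
  | _ θ ih =>
    have h1 : ∃ t, P (ext θ (fun η _ => R η)) θ t := by
      obtain ⟨t, ht⟩ := hex R θ ih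
      exact ⟨t, (hloc _ _ θ t (hext θ)).2 ht⟩
    have h2 : R θ = h1.choose := by
      rw [hR θ]
      simp only [F]
      rw [dif_pos h1]
    rw [h2]
    exact (hloc _ _ θ _ (hext θ)).1 h1.choose_spec

end Pool.Agent.Q304.Ham
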