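import Pool.Agent.Q304.Ham.Exist

/-!
A two-point set which for every direction splits into two Hamel bases that are selectors of the
lines in that direction.
-/

open Set Cardinal

namespace Pool.Agent.Q304.Ham

open Pool.Agent.Q304.SH (small_biUnion small_union small_prod small_mono)

/-- Tasks: `inl (c, u, _)`: the line `c + ℝ u` gets two points; `inr (v, u, X)`: the vector `v` gets
into the span of the class `X` of the splitting for the direction `u`. -/
abbrev Tk := (V × V × Bool) ⊕ (V × V × Bool)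

/-- The index set. -/
abbrev TH : Type := (𝔠 : Cardinal.{0}).ord.ToType

lemma mk_TH : #TH = 𝔠 := by simp [TH]

lemma TH_Iio (θ : TH) : #(Iio θ) < 𝔠 := mk_Iio_toType_ord_lt θ

lemma mk_Tk : #Tk = #TH := by
  rw [mk_TH]
  simp [Tk, V, mk_real]

/-- The points before stage `θ`. -/
def Mb (f : TH → Set V) (θ : TH) : Set V := ⋃ η ∈ Iio θ, f η

/-- What the block at stage `θ` has to do. -/
def Task (M β : Set V) : Tk → Prop
  | .inl (c, u, _) => u ≠ 0 → (∃ p ∈ β, p ∉ M ∧ dt (p - c) u = 0) ∨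
      ∃ p ∈ M, ∃ q ∈ M, p ≠ q ∧ dt (p - c) u = 0 ∧ dt (q - c) u = 0
  | .inr (v, u, X) => u ≠ 0 → ExtT M β v u X

/-- The blocks of a two-point set. -/
theorem exists_blocks (e : TH → Tk) : ∃ f : TH → Set V, ∀ θ, (f θ).Finite ∧
    N3 (Mb f θ ∪ f θ) ∧ Ext (Mb f θ) (f θ) ∧ Task (Mb f θ) (f θ) (e θ) := by
  refine trec (P := fun f θ β => β.Finite ∧ N3 (Mb f θ ∪ β) ∧ Ext (Mb f θ) β ∧
    Task (Mb f θ) β (e θ)) ?_ ?_
  · intro f g θ t h
    have : Mb f θ = Mb g θ := by
      unfold Mb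
      exact iUnion₂_congr fun η hη => h η hη
    rw [this]
  · intro f θ ih
    have hsmall : #(Mb f θ) < 𝔠 := small_biUnion (TH_Iio θ) fun η hη => (ih η hη).1.countable
    have hN3 : N3 (Mb f θ) := by
      intro a ha b hb c hc hab hac hbc
      obtain ⟨i, hi, ha⟩ := mem_iUnion₂.1 ha
      obtain ⟨j, hj, hb⟩ := mem_iUnion₂.1 hb
      obtain ⟨k, hk, hc⟩ := mem_iUnion₂.1 hc
      set m := max i (max j k) with hm
      have hmθ : m < θ := max_lt hi (max_lt hj hk)
      have key : ∀ x i, i ≤ m → x ∈ f i → x ∈ Mb f m ∪ f m := by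
        intro x i him hx
        rcases him.lt_or_eq with h | h
        · exact Or.inl (mem_biUnion (x := i) h hx)
        · exact Or.inr (h ▸ hx)
      exact (ih m hmθ).2.1 a (key a i (le_max_left _ _) ha) b
        (key b j ((le_max_left _ _).trans (le_max_right _ _)) hb) c
        (key c k ((le_max_right _ _).trans (le_max_right _ _)) hc) hab hac hbc
    rcases he : e θ with ⟨c, u, b⟩ | ⟨v, u, X⟩
    · by_cases hu : u = 0
      · exact ⟨∅, finite_empty, by rwa [union_empty], ext_empty _, fun h => absurd hu h⟩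
      · by_cases hl : ∃ p ∈ Mb f θ, ∃ q ∈ Mb f θ, p ≠ q ∧ dt (p - c) u = 0 ∧ dt (q - c) u = 0
        · exact ⟨∅, finite_empty, by rwa [union_empty], ext_empty _, fun _ => Or.inr hl⟩
        · obtain ⟨p, hp1, hp2, hp3⟩ := exists_single hsmall hu hl
          exact ⟨{p}, finite_singleton p, hN3.single (not_mem_of_span hp2) hp3,
            ext_single hp2 hp3, fun _ => Or.inl ⟨p, rfl, not_mem_of_span hp2, hp1⟩⟩
    · by_cases hu : u = 0
      · exact ⟨∅, finite_empty, by rwa [union_empty], ext_empty _, fun h => absurd hu h⟩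
      · obtain ⟨p, q, r, h1, h2⟩ := exists_tri hsmall v u hu
        exact ⟨{p, q, r}, Set.toFinite _, hN3.tri h1, h1.ext, fun _ => h1.extT hu h2 X⟩

/-- Unions of chains of splittings. -/
lemma Gd.union {ι : Type} [LinearOrder ι] {u : V} {M A B : ι → Set V}
    (h : ∀ i, Gd u (M i) (A i) (B i)) (hA : ∀ i j, i ≤ j → A i ⊆ A j)
    (hB : ∀ i j, i ≤ j → B i ⊆ B j) : Gd u (⋃ i, M i) (⋃ i, A i) (⋃ i, B i) := by
  refine ⟨?_, ?_, ?_, ?_, ?_, ?_⟩
  · rw [← iUnion_union_distrib]
    exact iUnion_congr fun i => (h i).un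
  · rw [Set.disjoint_left]
    intro x hx hx'
    obtain ⟨i, hi⟩ := mem_iUnion.1 hx
    obtain ⟨j, hj⟩ := mem_iUnion.1 hx'
    exact Set.disjoint_left.1 (h (max i j)).dj (hA _ _ (le_max_left _ _) hi)
      (hB _ _ (le_max_right _ _) hj)
  · refine linearIndepOn_iUnion_of_directed ?_ fun i => (h i).iA
    intro i j
    exact ⟨max i j, hA _ _ (le_max_left _ _), hA _ _ (le_max_right _ _)⟩
  · refine linearIndepOn_iUnion_of_directed ?_ fun i => (h i).iB
    intro i j
    exact ⟨max i j, hB _ _ (le_max_left _ _), hB _ _ (le_max_right _ _)⟩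
  · intro p hp q hq hpq
    obtain ⟨i, hi⟩ := mem_iUnion.1 hp
    obtain ⟨j, hj⟩ := mem_iUnion.1 hq
    exact (h (max i j)).sA p (hA _ _ (le_max_left _ _) hi) q (hA _ _ (le_max_right _ _) hj) hpq
  · intro p hp q hq hpq
    obtain ⟨i, hi⟩ := mem_iUnion.1 hp
    obtain ⟨j, hj⟩ := mem_iUnion.1 hq
    exact (h (max i j)).sB p (hB _ _ (le_max_left _ _) hi) q (hB _ _ (le_max_right _ _) hj) hpq

/-- The splitting for the direction `u`. -/
theorem exists_split {e : TH → Tk} (he : Function.Surjective e) {f : TH → Set V}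
    (hf : ∀ θ, (f θ).Finite ∧ N3 (Mb f θ ∪ f θ) ∧ Ext (Mb f θ) (f θ) ∧
      Task (Mb f θ) (f θ) (e θ)) {u : V} (hu : u ≠ 0) :
    ∃ A B, Gd u (⋃ θ, f θ) A B ∧ (∀ v, v ∈ Submodule.span ℚ A) ∧
      ∀ v, v ∈ Submodule.span ℚ B := by
  classical
  obtain ⟨g, hg⟩ := trec (T := Set V × Set V) (Θ := TH) (P := fun g θ t =>
    (∀ η < θ, (g η).1 ⊆ t.1 ∧ (g η).2 ⊆ t.2) ∧ Gd u (Mb f θ ∪ f θ) t.1 t.2 ∧
    ∀ v X, e θ = .inr (v, u, X) → v ∈ Submodule.span ℚ (if X then t.1 else t.2)) (by
      intro g g' θ t h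
      have h1 : (∀ η < θ, (g η).1 ⊆ t.1 ∧ (g η).2 ⊆ t.2) ↔
          ∀ η < θ, (g' η).1 ⊆ t.1 ∧ (g' η).2 ⊆ t.2 :=
        forall₂_congr fun η hη => by rw [h η hη]
      rw [h1]) (by
      intro g θ ih
      -- the splitting before stage `θ`
      have hG : Gd u (Mb f θ) (⋃ i : Iio θ, (g i).1) (⋃ i : Iio θ, (g i).2) := by
        have h1 := Gd.union (ι := Iio θ) (u := u) (M := fun i => Mb f i ∪ f i)
          (A := fun i => (g i).1) (B := fun i => (g i).2) (fun i => (ih i i.2).2.1) (by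
            intro i j hij
            rcases hij.lt_or_eq with h | h
            · exact ((ih j j.2).1 i h).1
            · rw [h]) (by
            intro i j hij
            rcases hij.lt_or_eq with h | h
            · exact ((ih j j.2).1 i h).2
            · rw [h])
        have h2 : (⋃ i : Iio θ, (Mb f i ∪ f i)) = Mb f θ := by
          apply Subset.antisymm
          · refine iUnion_subset fun i => union_subset ?_ ?_
            · intro x hx
              obtain ⟨j, hj, hx⟩ := mem_iUnion₂.1 hx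
              exact mem_biUnion (x := j) (mem_Iio.2 ((mem_Iio.1 hj).trans (mem_Iio.1 i.2))) hx
            · intro x hx
              exact mem_biUnion (x := (i : TH)) i.2 hx
          · intro x hx
            obtain ⟨j, hj, hx⟩ := mem_iUnion₂.1 hx
            exact mem_iUnion.2 ⟨⟨j, hj⟩, Or.inr hx⟩
        rwa [h2] at h1
      have hsub : ∀ (A' B' : Set V), (⋃ i : Iio θ, (g i).1) ⊆ A' → (⋃ i : Iio θ, (g i).2) ⊆ B' →
          ∀ η < θ, (g η).1 ⊆ A' ∧ (g η).2 ⊆ B' := by
        intro A' B' hA hB η hη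
        exact ⟨(subset_iUnion (fun i : Iio θ => (g i).1) ⟨η, hη⟩).trans hA,
          (subset_iUnion (fun i : Iio θ => (g i).2) ⟨η, hη⟩).trans hB⟩
      by_cases hc : ∃ v X, e θ = .inr (v, u, X)
      · obtain ⟨v, X, hv⟩ := hc
        have h3 := (hf θ).2.2.2
        rw [hv] at h3
        obtain ⟨A', B', h4, h5, h6, h7⟩ := h3 hu _ _ hG
        refine ⟨(A', B'), hsub A' B' h4 h5, h6, ?_⟩
        intro v' X' hv'
        rw [hv] at hv'
        injection hv' with hv'
        injection hv' with h8 h9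
        injection h9 with _ h10
        rw [← h8, ← h10]
        exact h7
      · obtain ⟨A', B', h4, h5, h6⟩ := (hf θ).2.2.1 u hu _ _ hG
        exact ⟨(A', B'), hsub A' B' h4 h5, h6, fun v X h => absurd ⟨v, X, h⟩ hc⟩)
  refine ⟨⋃ θ, (g θ).1, ⋃ θ, (g θ).2, ?_, ?_, ?_⟩
  · have h1 := Gd.union (ι := TH) (u := u) (M := fun i => Mb f i ∪ f i)
      (A := fun i => (g i).1) (B := fun i => (g i).2) (fun i => (hg i).2.1) (by
        intro i j hij
        rcases hij.lt_or_eq with h | h
        · exact ((hg j).1 i h).1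
        · rw [h]) (by
        intro i j hij
        rcases hij.lt_or_eq with h | h
        · exact ((hg j).1 i h).2
        · rw [h])
    have h2 : (⋃ i : TH, (Mb f i ∪ f i)) = ⋃ θ, f θ := by
      apply Subset.antisymm
      · refine iUnion_subset fun i => union_subset ?_ ?_
        · intro x hx
          obtain ⟨j, hj, hx⟩ := mem_iUnion₂.1 hx
          exact mem_iUnion.2 ⟨j, hx⟩
        · intro x hx
          exact mem_iUnion.2 ⟨i, hx⟩
      · intro x hx
        obtain ⟨j, hx⟩ := mem_iUnion.1 hx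
        exact mem_iUnion.2 ⟨j, Or.inr hx⟩
    rwa [h2] at h1
  · intro v
    obtain ⟨θ, hθ⟩ := he (.inr (v, u, true))
    have := (hg θ).2.2 v true hθ
    exact Submodule.span_mono (subset_iUnion (fun θ => (g θ).1) θ) (by simpa using this)
  · intro v
    obtain ⟨θ, hθ⟩ := he (.inr (v, u, false))
    have := (hg θ).2.2 v false hθ
    exact Submodule.span_mono (subset_iUnion (fun θ => (g θ).2) θ) (by simpa using this)

/-- The two-point set. -/
theorem exists_M : ∃ M : Set V,
    (∀ c u : V, u ≠ 0 → ∃ p ∈ M, ∃ q ∈ M, p ≠ q ∧ dt (p - c) u = 0 ∧ dt (q - c) u = 0 ∧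
      ∀ r ∈ M, dt (r - c) u = 0 → r = p ∨ r = q) ∧
    ∀ u : V, u ≠ 0 → ∃ A B, Gd u M A B ∧ (∀ v, v ∈ Submodule.span ℚ A) ∧
      ∀ v, v ∈ Submodule.span ℚ B := by
  classical
  obtain ⟨e⟩ := Cardinal.eq.1 mk_Tk
  obtain ⟨f, hf⟩ := exists_blocks e.symm
  refine ⟨⋃ θ, f θ, ?_, fun u hu => exists_split e.symm.surjective hf hu⟩
  have hN3 : N3 (⋃ θ, f θ) := by
    intro a ha b hb c hc hab hac hbc
    obtain ⟨i, ha⟩ := mem_iUnion.1 ha
    obtain ⟨j, hb⟩ := mem_iUnion.1 hb
    obtain ⟨k, hc⟩ := mem_iUnion.1 hc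
    set m := max i (max j k) with hm
    have key : ∀ x i, i ≤ m → x ∈ f i → x ∈ Mb f m ∪ f m := by
      intro x i him hx
      rcases him.lt_or_eq with h | h
      · exact Or.inl (mem_biUnion (x := i) h hx)
      · exact Or.inr (h ▸ hx)
    exact (hf m).2.1 a (key a i (le_max_left _ _) ha) b
      (key b j ((le_max_left _ _).trans (le_max_right _ _)) hb) c
      (key c k ((le_max_right _ _).trans (le_max_right _ _)) hc) hab hac hbc
  intro c u hu
  have hMb : ∀ θ, Mb f θ ⊆ ⋃ θ, f θ := by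
    intro θ x hx
    obtain ⟨j, hj, hx⟩ := mem_iUnion₂.1 hx
    exact mem_iUnion.2 ⟨j, hx⟩
  have htwo : ∃ p ∈ ⋃ θ, f θ, ∃ q ∈ ⋃ θ, f θ, p ≠ q ∧ dt (p - c) u = 0 ∧ dt (q - c) u = 0 := by
    have h1 := (hf (e (.inl (c, u, true)))).2.2.2
    have h2 := (hf (e (.inl (c, u, false)))).2.2.2
    rw [Equiv.symm_apply_apply] at h1 h2
    rcases h1 hu with ⟨p, hp, hpM, hpc⟩ | ⟨p, hp, q, hq, h⟩
    · rcases h2 hu with ⟨q, hq, hqM, hqc⟩ | ⟨p, hp, q, hq, h⟩
      · refine ⟨p, mem_iUnion.2 ⟨_, hp⟩, q, mem_iUnion.2 ⟨_, hq⟩, ?_, hpc, hqc⟩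
        rintro rfl
        have hne : e (.inl (c, u, true)) ≠ e (.inl (c, u, false)) := by
          intro h
          have := e.injective h
          simp at this
        rcases lt_or_gt_of_ne hne with h | h
        · exact hqM (mem_biUnion (x := e (.inl (c, u, true))) h hp)
        · exact hpM (mem_biUnion (x := e (.inl (c, u, false))) h hq)
      · exact ⟨p, hMb _ hp, q, hMb _ hq, h⟩
    · exact ⟨p, hMb _ hp, q, hMb _ hq, h⟩
  obtain ⟨p, hp, q, hq, hpq, h1, h2⟩ := htwo
  refine ⟨p, hp, q, hq, hpq, h1, h2, fun r hr h3 => ?_⟩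
  by_contra hcon
  rw [not_or] at hcon
  refine hN3 p hp q hq r hr hpq (fun h => hcon.1 h.symm) (fun h => hcon.2 h.symm)
    (dt_par hu ?_ ?_)
  · simp only [dt, Prod.fst_sub, Prod.snd_sub] at *; linarith
  · simp only [dt, Prod.fst_sub, Prod.snd_sub] at *; linarith

/-- Rotation about the origin by the angle `θ`. -/
noncomputable def rot (θ : ℝ) (p : ℝ × ℝ) : ℝ × ℝ :=
  (p.1 * Real.cos θ - p.2 * Real.sin θ, p.1 * Real.sin θ + p.2 * Real.cos θ)

/-- A Hamel function: the graph is a basis of the plane over the rationals. -/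
def Hamel (h : ℝ → ℝ) : Prop :=
  LinearIndependent ℚ (fun x : ℝ => ((x, h x) : ℝ × ℝ)) ∧
    Submodule.span ℚ (range fun x : ℝ => ((x, h x) : ℝ × ℝ)) = ⊤

/-- Rotation as a linear map over the rationals. -/
noncomputable def rotL (θ : ℝ) : V →ₗ[ℚ] V where
  toFun := rot θ
  map_add' p q := by
    simp only [rot, Prod.fst_add, Prod.snd_add, Prod.mk_add_mk, Prod.mk.injEq]
    constructor <;> ring
  map_smul' a p := by
    simp only [rot, Prod.smul_fst, Prod.smul_snd, Rat.smul_def, RingHom.id_apply, Prod.smul_mk,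
      Prod.mk.injEq]
    constructor <;> ring

lemma rot_neg (θ : ℝ) (p : V) : rot (-θ) (rot θ p) = p := by
  have h := Real.sin_sq_add_cos_sq θ
  simp only [rot, Real.cos_neg, Real.sin_neg]
  apply Prod.ext
  · simp only
    have : (p.1 * Real.cos θ - p.2 * Real.sin θ) * Real.cos θ -
        (p.1 * Real.sin θ + p.2 * Real.cos θ) * -Real.sin θ =
        p.1 * (Real.sin θ ^ 2 + Real.cos θ ^ 2) := by ring
    rw [this, h, mul_one]
  · simp only
    have : (p.1 * Real.cos θ - p.2 * Real.sin θ) * -Real.sin θ +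
        (p.1 * Real.sin θ + p.2 * Real.cos θ) * Real.cos θ =
        p.2 * (Real.sin θ ^ 2 + Real.cos θ ^ 2) := by ring
    rw [this, h, mul_one]

lemma rot_inj (θ : ℝ) : Function.Injective (rot θ) := fun p q h => by
  rw [← rot_neg θ p, h, rot_neg]

lemma rot_surj (θ : ℝ) : Function.Surjective (rot θ) := fun p => ⟨rot (-θ) p, by
  have := rot_neg (-θ) p
  rwa [neg_neg] at this⟩

/-- A class of a splitting in direction `θ` is, after rotation, the graph of a Hamel function. -/
lemma hamel_of_class {θ : ℝ} {A : Set V} (hA : LinearIndepOn ℚ id A)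
    (hspan : ∀ v, v ∈ Submodule.span ℚ A)
    (hinj : ∀ p ∈ A, ∀ q ∈ A, dt (p - q) (Real.sin θ, Real.cos θ) = 0 → p = q)
    (hsurj : ∀ x : ℝ, ∃ p ∈ A, (rot θ p).1 = x) :
    ∃ f : ℝ → ℝ, Hamel f ∧ rot θ '' A = {p | p.2 = f p.1} := by
  choose a haA ha using hsurj
  have hax : ∀ x, rot θ (a x) = (x, (rot θ (a x)).2) := fun x => Prod.ext (ha x) rfl
  have hainj : Function.Injective a := by
    intro x y h
    rw [← ha x, ← ha y, h]
  have hrange : range a = A := by
    apply Subset.antisymm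
    · rintro _ ⟨x, rfl⟩; exact haA x
    · intro p hp
      refine ⟨(rot θ p).1, hinj _ (haA _) _ hp ?_⟩
      have := ha (rot θ p).1
      simp only [rot] at this
      simp only [dt, Prod.fst_sub, Prod.snd_sub]
      simp only [rot]
      linarith
  refine ⟨fun x => (rot θ (a x)).2, ⟨?_, ?_⟩, ?_⟩
  · have h1 : LinearIndependent ℚ a := by
      have h2 : LinearIndependent ℚ (fun x : A => (x : V)) := hA
      exact h2.comp (fun x => (⟨a x, haA x⟩ : A)) (fun x y h => hainj (congrArg Subtype.val h))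
    have h3 := h1.map' (rotL θ) (LinearMap.ker_eq_bot.2 (rot_inj θ))
    have h4 : (fun x : ℝ => ((x, (rot θ (a x)).2) : ℝ × ℝ)) = (rotL θ) ∘ a := by
      funext x
      exact (hax x).symm
    rw [h4]
    exact h3
  · have h4 : (range fun x : ℝ => ((x, (rot θ (a x)).2) : ℝ × ℝ)) = (rotL θ) '' A := by
      rw [← hrange, ← range_comp]
      congr 1
      funext x
      exact (hax x).symm
    rw [h4, Submodule.span_image]
    have h5 : Submodule.span ℚ A = ⊤ := eq_top_iff.2 fun v _ => hspan v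
    rw [h5, Submodule.map_top, LinearMap.range_eq_top]
    exact rot_surj θ
  · ext p
    constructor
    · rintro ⟨q, hq, rfl⟩
      rw [← hrange] at hq
      obtain ⟨x, rfl⟩ := hq
      change (rot θ (a x)).2 = (rot θ (a (rot θ (a x)).1)).2
      rw [ha x]
    · intro hp
      have hp' : p.2 = (rot θ (a p.1)).2 := hp
      refine ⟨a p.1, haA _, ?_⟩
      rw [hax p.1, ← hp']

/-- The main theorem. -/
theorem main : ∃ M : Set (ℝ × ℝ),
    (∀ a b c : ℝ, (a ≠ 0 ∨ b ≠ 0) → {p ∈ M | a * p.1 + b * p.2 = c}.ncard = 2) ∧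
    ∀ θ : ℝ, ∃ f g : ℝ → ℝ, Hamel f ∧ Hamel g ∧
      rot θ '' M = {p | p.2 = f p.1} ∪ {p | p.2 = g p.1} := by
  obtain ⟨M, hM, hs⟩ := exists_M
  refine ⟨M, ?_, ?_⟩
  · intro a b c hab
    -- the line as `c₀ + ℝ u`
    have hu : ((b, -a) : V) ≠ 0 := by
      intro h
      have h1 := congrArg Prod.fst h
      have h2 := congrArg Prod.snd h
      simp only [Prod.fst_zero, Prod.snd_zero, neg_eq_zero] at h1 h2
      rcases hab with h | h
      · exact h h2
      · exact h h1
    have hn : a * a + b * b ≠ 0 := by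
      intro h
      have h1 : a = 0 := by nlinarith [mul_self_nonneg a, mul_self_nonneg b]
      have h2 : b = 0 := by nlinarith [mul_self_nonneg a, mul_self_nonneg b]
      rcases hab with h | h
      · exact h h1
      · exact h h2
    let c₀ : V := (a * c / (a * a + b * b), b * c / (a * a + b * b))
    have hc₀ : a * c₀.1 + b * c₀.2 = c := by
      simp only [c₀]
      rw [show a * (a * c / (a * a + b * b)) + b * (b * c / (a * a + b * b)) =
        c * ((a * a + b * b) / (a * a + b * b)) by ring, div_self hn, mul_one]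
    have hline : ∀ p : V, dt (p - c₀) (b, -a) = 0 ↔ a * p.1 + b * p.2 = c := by
      intro p
      rw [← hc₀]
      simp only [dt, Prod.fst_sub, Prod.snd_sub]
      constructor <;> intro h <;> linarith
    obtain ⟨p, hp, q, hq, hpq, h1, h2, h3⟩ := hM c₀ (b, -a) hu
    rw [ncard_eq_two]
    refine ⟨p, q, hpq, ?_⟩
    ext r
    constructor
    · rintro ⟨hr, hrc⟩
      rcases h3 r hr ((hline r).2 hrc) with h | h
      · exact Or.inl h
      · exact Or.inr h
    · rintro (rfl | h)
      · exact ⟨hp, (hline _).1 h1⟩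
      · rw [mem_singleton_iff] at h
        rw [h]
        exact ⟨hq, (hline _).1 h2⟩
  · intro θ
    have hu : ((Real.sin θ, Real.cos θ) : V) ≠ 0 := by
      intro h
      have h1 := congrArg Prod.fst h
      have h2 := congrArg Prod.snd h
      simp only [Prod.fst_zero, Prod.snd_zero] at h1 h2
      have := Real.sin_sq_add_cos_sq θ
      rw [h1, h2] at this
      norm_num at this
    obtain ⟨A, B, hG, hA, hB⟩ := hs _ hu
    have hboth : ∀ x : ℝ, (∃ p ∈ A, (rot θ p).1 = x) ∧ ∃ p ∈ B, (rot θ p).1 = x := by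
      intro x
      have hc : ∀ p : V, dt (p - rot (-θ) (x, 0)) (Real.sin θ, Real.cos θ) = 0 ↔
          (rot θ p).1 = x := by
        intro p
        have h := Real.sin_sq_add_cos_sq θ
        simp only [dt, rot, Prod.fst_sub, Prod.snd_sub, Real.cos_neg, Real.sin_neg]
        have e1 : (p.1 - (x * Real.cos θ - 0 * -Real.sin θ)) * Real.cos θ -
            (p.2 - (x * -Real.sin θ + 0 * Real.cos θ)) * Real.sin θ =
            p.1 * Real.cos θ - p.2 * Real.sin θ - x * (Real.sin θ ^ 2 + Real.cos θ ^ 2) := by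
          ring
        rw [e1, h, mul_one]
        constructor <;> intro h' <;> linarith
      obtain ⟨p, hp, q, hq, hpq, h1, h2, _⟩ := hM (rot (-θ) (x, 0)) _ hu
      have hpq' : dt (p - q) (Real.sin θ, Real.cos θ) = 0 := by
        simp only [dt, Prod.fst_sub, Prod.snd_sub] at *; linarith
      rw [hc] at h1 h2
      rw [← hG.un] at hp hq
      rcases hp with hp | hp
      · rcases hq with hq | hq
        · exact absurd (hG.sA p hp q hq hpq') hpq
        · exact ⟨⟨p, hp, h1⟩, ⟨q, hq, h2⟩⟩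
      · rcases hq with hq | hq
        · exact ⟨⟨q, hq, h2⟩, ⟨p, hp, h1⟩⟩
        · exact absurd (hG.sB p hp q hq hpq') hpq
    obtain ⟨f, hf, hfA⟩ := hamel_of_class hG.iA hA hG.sA (fun x => (hboth x).1)
    obtain ⟨g, hg, hgB⟩ := hamel_of_class hG.iB hB hG.sB (fun x => (hboth x).2)
    refine ⟨f, g, hf, hg, ?_⟩
    rw [← hfA, ← hgB, ← image_union, hG.un]

end Pool.Agent.Q304.Ham
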